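import Mathlib

/-!
# Two terminating hypergeometric sums
-/

set_option autoImplicit false

namespace Pool.Agent.V11304.SQ

open Finset

def PP (n : ℕ) : ℚ := ∑ j ∈ range (n + 1), (-4) ^ j * ((n + j).choose (2 * j) : ℚ)

def QQ (n : ℕ) : ℚ := ∑ j ∈ range (n + 1), (-4) ^ j * ((n + j).choose (2 * j + 1) : ℚ)

lemma QQ_succ (n : ℕ) : QQ (n + 1) = QQ n + PP n := by
  unfold QQ PP
  have h1 : ∀ j : ℕ, (-4 : ℚ) ^ j * ((n + 1 + j).choose (2 * j + 1) : ℚ) =
      (-4) ^ j * ((n + j).choose (2 * j + 1) : ℚ) + (-4) ^ j * ((n + j).choose (2 * j) : ℚ) := by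
    intro j
    rw [show n + 1 + j = (n + j) + 1 by ring, Nat.choose_succ_succ]
    push_cast
    ring
  rw [sum_range_succ, sum_congr rfl fun j _ => h1 j, sum_add_distrib,
    Nat.choose_eq_zero_of_lt (by omega : n + 1 + (n + 1) < 2 * (n + 1) + 1)]
  simp

lemma PP_succ (n : ℕ) : PP (n + 1) = PP n - 4 * QQ (n + 1) := by
  unfold QQ PP
  rw [sum_range_succ' (fun j => (-4 : ℚ) ^ j * ((n + 1 + j).choose (2 * j) : ℚ))]
  have h1 : ∀ j : ℕ, (-4 : ℚ) ^ (j + 1) * ((n + 1 + (j + 1)).choose (2 * (j + 1)) : ℚ) =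
      (-4) ^ (j + 1) * ((n + (j + 1)).choose (2 * (j + 1)) : ℚ) +
      (-4) * ((-4) ^ j * ((n + 1 + j).choose (2 * j + 1) : ℚ)) := by
    intro j
    rw [show n + 1 + (j + 1) = (n + 1 + j) + 1 by ring, show 2 * (j + 1) = (2 * j + 1) + 1 by ring,
      Nat.choose_succ_succ, show n + 1 + j = n + (j + 1) by ring]
    push_cast
    ring
  rw [sum_congr rfl fun j _ => h1 j, sum_add_distrib, ← mul_sum]
  have h2 : ∑ j ∈ range (n + 1), (-4 : ℚ) ^ j * ((n + j).choose (2 * j) : ℚ) =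
      ∑ j ∈ range (n + 1), (-4 : ℚ) ^ (j + 1) * ((n + (j + 1)).choose (2 * (j + 1)) : ℚ) + 1 := by
    rw [sum_range_succ' (fun j => (-4 : ℚ) ^ j * ((n + j).choose (2 * j) : ℚ)), sum_range_succ
      (fun j => (-4 : ℚ) ^ (j + 1) * ((n + (j + 1)).choose (2 * (j + 1)) : ℚ)),
      Nat.choose_eq_zero_of_lt (by omega : n + (n + 1) < 2 * (n + 1))]
    simp
  have h3 : ∑ j ∈ range (n + 1 + 1), (-4 : ℚ) ^ j * ((n + 1 + j).choose (2 * j + 1) : ℚ) =
      ∑ j ∈ range (n + 1), (-4 : ℚ) ^ j * ((n + 1 + j).choose (2 * j + 1) : ℚ) := by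
    rw [sum_range_succ, Nat.choose_eq_zero_of_lt (by omega : n + 1 + (n + 1) < 2 * (n + 1) + 1)]
    simp
  rw [h2, h3]
  simp
  ring

lemma PQ (n : ℕ) : PP n = (-1) ^ n * (2 * n + 1) ∧ QQ n = -((-1) ^ n * n) := by
  induction n with
  | zero => simp [PP, QQ]
  | succ n ih =>
    obtain ⟨h1, h2⟩ := ih
    have h3 : QQ (n + 1) = -((-1) ^ (n + 1) * ((n + 1 : ℕ) : ℚ)) := by
      rw [QQ_succ, h1, h2]
      push_cast
      ring
    refine ⟨?_, h3⟩
    rw [PP_succ, h1, h3]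
    push_cast
    ring

lemma PQ2 (n : ℕ) : PP n + 2 * QQ n = (-1) ^ n := by
  obtain ⟨h1, h2⟩ := PQ n
  rw [h1, h2]
  ring

/-- the terms of `₂F₁(-n, n+1; 3/2; 1)` -/
def w (n k : ℕ) : ℚ := (-4) ^ k * ((n + k).choose (2 * k) : ℚ) / (2 * k + 1)

lemma w_mul (n k : ℕ) : (2 * n + 1) * w n k =
    (-4) ^ k * ((n + k).choose (2 * k) : ℚ) + 2 * ((-4) ^ k * ((n + k).choose (2 * k + 1) : ℚ)) := by
  unfold w
  have h1 := Nat.choose_succ_right_eq (n + k) (2 * k)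
  have h0 : (2 * (k : ℚ) + 1) ≠ 0 := by positivity
  rcases Nat.lt_or_ge (n + k) (2 * k) with h | h
  · rw [Nat.choose_eq_zero_of_lt h, Nat.choose_eq_zero_of_lt (by omega : n + k < 2 * k + 1)]
    simp
  · have h2 : (((n + k).choose (2 * k + 1) : ℕ) : ℚ) * (2 * k + 1) =
        ((n + k).choose (2 * k) : ℕ) * ((n : ℚ) - k) := by
      have h3 : ((n + k - 2 * k : ℕ) : ℚ) = (n : ℚ) - k := by
        rw [Nat.cast_sub h]
        push_cast
        ring
      rw [← h3]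
      exact_mod_cast h1
    rw [mul_div_assoc', div_eq_iff h0]
    linear_combination (-2 : ℚ) * (-4) ^ k * h2

lemma sum_w (n N : ℕ) (h : n < N) : (2 * n + 1) * ∑ k ∈ range N, w n k = (-1) ^ n := by
  rw [mul_sum, sum_congr rfl fun k _ => w_mul n k]
  have h1 : ∑ k ∈ range (n + 1), ((-4 : ℚ) ^ k * ((n + k).choose (2 * k) : ℚ) +
      2 * ((-4) ^ k * ((n + k).choose (2 * k + 1) : ℚ))) =
      ∑ k ∈ range N, ((-4 : ℚ) ^ k * ((n + k).choose (2 * k) : ℚ) +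
      2 * ((-4) ^ k * ((n + k).choose (2 * k + 1) : ℚ))) := by
    apply sum_subset
    · intro k hk
      rw [mem_range] at hk ⊢
      omega
    · intro k _ hk
      rw [mem_range, not_lt] at hk
      rw [Nat.choose_eq_zero_of_lt (by omega : n + k < 2 * k),
        Nat.choose_eq_zero_of_lt (by omega : n + k < 2 * k + 1)]
      simp
  rw [← h1, sum_add_distrib, ← mul_sum]
  exact PQ2 n

/-- the terms of `₂F₁(-n, n; 1/2; 1)` -/
def z (n j : ℕ) : ℚ := (-4) ^ j * ((n : ℚ) / ((n : ℚ) + j)) * ((n + j).choose (2 * j) : ℚ)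

lemma z_zero (n : ℕ) (hn : 1 ≤ n) : z n 0 = 1 := by
  unfold z
  have : (n : ℚ) ≠ 0 := by
    have : 0 < n := hn
    positivity
  simp [this]

lemma z_succ (n i : ℕ) (hn : 1 ≤ n) : z n (i + 1) =
    (-4) ^ (i + 1) * ((n + (i + 1)).choose (2 * (i + 1)) : ℚ) +
      2 * ((-4) ^ i * ((n + i).choose (2 * i + 1) : ℚ)) := by
  unfold z
  have h1 := Nat.add_one_mul_choose_eq (n + i) (2 * i + 1)
  have h0 : ((n : ℚ) + ((i + 1 : ℕ) : ℚ)) ≠ 0 := by positivity
  have h2 : ((n : ℚ) + i + 1) * ((n + i).choose (2 * i + 1) : ℚ) =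
      ((n + i + 1).choose (2 * i + 2) : ℚ) * (2 * i + 2) := by exact_mod_cast h1
  rw [show n + (i + 1) = n + i + 1 by ring, show 2 * (i + 1) = 2 * i + 2 by ring,
    mul_comm ((-4 : ℚ) ^ (i + 1)), div_mul_eq_mul_div, div_mul_eq_mul_div, div_eq_iff h0]
  push_cast
  linear_combination (-2 : ℚ) * (-4) ^ i * h2

lemma sum_z (n N : ℕ) (hn : 1 ≤ n) (h : n < N) : ∑ j ∈ range N, z n j = (-1) ^ n := by
  obtain ⟨M, rfl⟩ : ∃ M, N = M + 1 := ⟨N - 1, by omega⟩
  rw [sum_range_succ', z_zero n hn, sum_congr rfl fun i _ => z_succ n i hn, ← PQ2 n,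
    sum_add_distrib, ← mul_sum]
  have h1 : PP n = ∑ i ∈ range M, (-4 : ℚ) ^ (i + 1) * ((n + (i + 1)).choose (2 * (i + 1)) : ℚ)
      + 1 := by
    have h2 : PP n = ∑ j ∈ range (M + 1), (-4 : ℚ) ^ j * ((n + j).choose (2 * j) : ℚ) := by
      unfold PP
      apply sum_subset
      · intro k hk
        rw [mem_range] at hk ⊢
        omega
      · intro k _ hk
        rw [mem_range, not_lt] at hk
        rw [Nat.choose_eq_zero_of_lt (by omega : n + k < 2 * k)]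
        simp
    rw [h2, sum_range_succ']
    simp
  have h3 : QQ n = ∑ i ∈ range M, (-4 : ℚ) ^ i * ((n + i).choose (2 * i + 1) : ℚ) := by
    unfold QQ
    rw [sum_range_succ, Nat.choose_eq_zero_of_lt (by omega : n + n < 2 * n + 1), Nat.cast_zero,
      mul_zero, add_zero]
    apply sum_subset
    · intro k hk
      rw [mem_range] at hk ⊢
      omega
    · intro k _ hk
      rw [mem_range, not_lt] at hk
      rw [Nat.choose_eq_zero_of_lt (by omega : n + k < 2 * k + 1)]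
      simp
  rw [h1, h3]
  ring

end Pool.Agent.V11304.SQ
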