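import Pool.Agent.V11304.PI.Basic
import Pool.Agent.V11304.SQ.Comb

/-!
# The sum of `s_k / 108^k` modulo `p`
-/

set_option autoImplicit false

namespace Pool.Agent.V11304.SQ

open Finset Pool.Agent.V11304.PI

/-- the number `s_n` -/
def s (n : ℕ) : ℚ :=
  ((6 * n).factorial : ℚ) * (n.factorial : ℚ) /
    (2 * (2 * n + 1) * ((3 * n).factorial : ℚ) * ((2 * n).factorial : ℚ) ^ 2)

/-- twice `s_n / 108^n` -/
def u (n : ℕ) : ℚ := 2 * s n / 108 ^ n

lemma u_zero : u 0 = 1 := by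
  norm_num [u, s]

lemma u_succ (k : ℕ) :
    u (k + 1) = u k * ((6 * k + 1) * (6 * k + 5) / (18 * (2 * k + 3) * (k + 1))) := by
  have h6 : ((6 * (k + 1)).factorial : ℚ) = ((6 * k).factorial : ℚ) * ((6 * k + 1) * (6 * k + 2) *
      (6 * k + 3) * (6 * k + 4) * (6 * k + 5) * (6 * k + 6)) := by
    rw [show 6 * (k + 1) = 6 * k + 1 + 1 + 1 + 1 + 1 + 1 by ring]
    simp only [Nat.factorial_succ]
    push_cast
    ring
  have h3 : ((3 * (k + 1)).factorial : ℚ) = ((3 * k).factorial : ℚ) * ((3 * k + 1) * (3 * k + 2) *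
      (3 * k + 3)) := by
    rw [show 3 * (k + 1) = 3 * k + 1 + 1 + 1 by ring]
    simp only [Nat.factorial_succ]
    push_cast
    ring
  have h2 : ((2 * (k + 1)).factorial : ℚ) = ((2 * k).factorial : ℚ) * ((2 * k + 1) *
      (2 * k + 2)) := by
    rw [show 2 * (k + 1) = 2 * k + 1 + 1 by ring]
    simp only [Nat.factorial_succ]
    push_cast
    ring
  have h1 : ((k + 1).factorial : ℚ) = (k.factorial : ℚ) * (k + 1) := by
    rw [Nat.factorial_succ]
    push_cast
    ring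
  unfold u s
  rw [h6, h3, h2, h1]
  push_cast
  have f2 : ((2 * k).factorial : ℚ) ≠ 0 := by positivity
  have f3 : ((3 * k).factorial : ℚ) ≠ 0 := by positivity
  have g1 : (2 * (k : ℚ) + 1) ≠ 0 := by positivity
  have g2 : (2 * (k : ℚ) + 3) ≠ 0 := by positivity
  have g3 : ((k : ℚ) + 1) ≠ 0 := by positivity
  have g4 : (2 * ((k : ℚ) + 1) + 1) ≠ 0 := by positivity
  have g5 : (3 * (k : ℚ) + 1) ≠ 0 := by positivity
  have g6 : (3 * (k : ℚ) + 2) ≠ 0 := by positivity
  have g7 : (3 * (k : ℚ) + 3) ≠ 0 := by positivity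
  have g8 : (2 * (k : ℚ) + 2) ≠ 0 := by positivity
  rw [pow_succ]
  field_simp
  ring

lemma w_succ (n k : ℕ) : w n (k + 1) = w n k *
    (-2 * (n + k + 1) * ((n : ℚ) - k) / ((2 * k + 3) * (k + 1))) := by
  unfold w
  have h0 : (2 * (k : ℚ) + 1) ≠ 0 := by positivity
  have h3 : (2 * (k : ℚ) + 3) ≠ 0 := by positivity
  have h4 : ((k : ℚ) + 1) ≠ 0 := by positivity
  have h5 : (2 * ((k + 1 : ℕ) : ℚ) + 1) ≠ 0 := by positivity
  have h1 : (((n + (k + 1)).choose (2 * (k + 1)) : ℕ) : ℚ) * (2 * (k + 1)) * (2 * k + 1) =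
      (n + k + 1) * ((n : ℚ) - k) * ((n + k).choose (2 * k) : ℕ) := by
    have e1 := Nat.add_one_mul_choose_eq (n + k) (2 * k + 1)
    have e2 := Nat.choose_succ_right_eq (n + k) (2 * k)
    have e1' : ((n : ℚ) + k + 1) * ((n + k).choose (2 * k + 1) : ℚ) =
      ((n + k + 1).choose (2 * k + 2) : ℚ) * (2 * k + 2) := by exact_mod_cast e1
    have e2' : (((n + k).choose (2 * k + 1) : ℕ) : ℚ) * (2 * k + 1) =
        ((n + k).choose (2 * k) : ℕ) * ((n : ℚ) - k) := by
      rcases Nat.lt_or_ge (n + k) (2 * k) with h | h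
      · rw [Nat.choose_eq_zero_of_lt h, Nat.choose_eq_zero_of_lt (by omega : n + k < 2 * k + 1)]
        simp
      · have h3 : ((n + k - 2 * k : ℕ) : ℚ) = (n : ℚ) - k := by
          rw [Nat.cast_sub h]
          push_cast
          ring
        rw [← h3]
        exact_mod_cast e2
    rw [show n + (k + 1) = n + k + 1 by ring, show 2 * (k + 1) = 2 * k + 2 by ring]
    linear_combination (-(2 * (k : ℚ) + 1)) * e1' + ((n : ℚ) + k + 1) * e2'
  rw [div_mul_div_comm, div_eq_div_iff h5 (by positivity), pow_succ]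
  push_cast
  linear_combination (-4) * (-4) ^ k * (2 * (k : ℚ) + 3) / 2 * h1

lemma z_succ' (n j : ℕ) (hn : 1 ≤ n) : z n (j + 1) = z n j *
    (-2 * ((n : ℚ) ^ 2 - j ^ 2) / ((2 * j + 1) * (j + 1))) := by
  unfold z
  have h0 : (2 * (j : ℚ) + 1) ≠ 0 := by positivity
  have h4 : ((j : ℚ) + 1) ≠ 0 := by positivity
  have hn0 : (0 : ℚ) < n := by
    have : 0 < n := hn
    positivity
  have h5 : ((n : ℚ) + ((j + 1 : ℕ) : ℚ)) ≠ 0 := by positivity
  have h6 : ((n : ℚ) + j) ≠ 0 := by positivity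
  have h1 : (((n + (j + 1)).choose (2 * (j + 1)) : ℕ) : ℚ) * (2 * (j + 1)) * (2 * j + 1) =
      (n + j + 1) * ((n : ℚ) - j) * ((n + j).choose (2 * j) : ℕ) := by
    have e1 := Nat.add_one_mul_choose_eq (n + j) (2 * j + 1)
    have e2 := Nat.choose_succ_right_eq (n + j) (2 * j)
    have e1' : ((n : ℚ) + j + 1) * ((n + j).choose (2 * j + 1) : ℚ) =
      ((n + j + 1).choose (2 * j + 2) : ℚ) * (2 * j + 2) := by exact_mod_cast e1
    have e2' : (((n + j).choose (2 * j + 1) : ℕ) : ℚ) * (2 * j + 1) =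
        ((n + j).choose (2 * j) : ℕ) * ((n : ℚ) - j) := by
      rcases Nat.lt_or_ge (n + j) (2 * j) with h | h
      · rw [Nat.choose_eq_zero_of_lt h, Nat.choose_eq_zero_of_lt (by omega : n + j < 2 * j + 1)]
        simp
      · have h3 : ((n + j - 2 * j : ℕ) : ℚ) = (n : ℚ) - j := by
          rw [Nat.cast_sub h]
          push_cast
          ring
        rw [← h3]
        exact_mod_cast e2
    rw [show n + (j + 1) = n + j + 1 by ring, show 2 * (j + 1) = 2 * j + 2 by ring]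
    linear_combination (-(2 * (j : ℚ) + 1)) * e1' + ((n : ℚ) + j + 1) * e2'
  have h7 : (((n + (j + 1)).choose (2 * (j + 1)) : ℕ) : ℚ) =
      (n + j + 1) * ((n : ℚ) - j) * ((n + j).choose (2 * j) : ℕ) / ((2 * (j + 1)) * (2 * j + 1)) := by
    rw [eq_div_iff (by positivity), ← h1]
    ring
  rw [h7, pow_succ]
  push_cast
  have h8 : ((n : ℚ) + (j + 1)) ≠ 0 := by positivity
  field_simp
  ring

end Pool.Agent.V11304.SQ
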