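import Pool.Agent.V11304.SQ.Series
import Pool.Agent.V11304.SQ.Cong

/-!
# The expansion of `cos ((2/3) arccos (6 √3 x)) / 12`
-/

set_option autoImplicit false

namespace Pool.Agent.V11304.SQ

open Finset

/-- the number `t_{n+1}` -/
def T (n : ℕ) : ℤ := 16 ^ n * (2 * ((3 * n + 1).choose n : ℤ) - ((3 * n + 1).choose (n + 1) : ℤ))

lemma T_mul (n : ℕ) : ((n : ℤ) + 1) * T n = 16 ^ n * ((3 * n + 1).choose n : ℤ) := by
  unfold T
  have h1 := Nat.choose_succ_right_eq (3 * n + 1) n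
  rw [show 3 * n + 1 - n = 2 * n + 1 by omega] at h1
  have h2 : (((3 * n + 1).choose (n + 1) : ℕ) : ℤ) * ((n : ℤ) + 1) =
    ((3 * n + 1).choose n : ℕ) * (2 * n + 1) := by exact_mod_cast h1
  linear_combination (-16 ^ n : ℤ) * h2

lemma T_pos (n : ℕ) : 0 < T n := by
  have h1 := T_mul n
  have h2 : 0 < (16 : ℤ) ^ n * ((3 * n + 1).choose n : ℤ) := by
    have : 0 < (3 * n + 1).choose n := Nat.choose_pos (by omega)
    positivity
  rw [← h1] at h2
  exact (mul_pos_iff_of_pos_left (by positivity)).mp h2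

lemma T_eq (n : ℕ) : (T n : ℝ) =
    16 ^ n * ((3 * n + 1).factorial : ℝ) / (((n + 1).factorial : ℝ) * ((2 * n + 1).factorial : ℝ)) := by
  have h1 : ((n : ℝ) + 1) * T n = 16 ^ n * ((3 * n + 1).choose n : ℝ) := by exact_mod_cast T_mul n
  have h2 : ((3 * n + 1).choose n : ℝ) = ((3 * n + 1).factorial : ℝ) /
      ((n.factorial : ℝ) * ((2 * n + 1).factorial : ℝ)) := by
    rw [Nat.cast_choose ℝ (by omega : n ≤ 3 * n + 1), show 3 * n + 1 - n = 2 * n + 1 by omega]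
  have h3 : ((n + 1).factorial : ℝ) = ((n : ℝ) + 1) * (n.factorial : ℝ) := by
    rw [Nat.factorial_succ]
    push_cast
    ring
  have h4 : ((n : ℝ) + 1) ≠ 0 := by positivity
  have h5 : (n.factorial : ℝ) ≠ 0 := by positivity
  have h6 : ((2 * n + 1).factorial : ℝ) ≠ 0 := by positivity
  rw [h3]
  apply mul_left_cancel₀ h4
  rw [h1, h2]
  field_simp

lemma T_rec (n : ℕ) : (T (n + 1) : ℝ) =
    T n * (24 * (3 * n + 2) * (3 * n + 4) / ((2 * n + 3) * (n + 2))) := by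
  rw [T_eq, T_eq]
  have e1 : ((3 * (n + 1) + 1).factorial : ℝ) = ((3 * n + 1).factorial : ℝ) *
      ((3 * n + 2) * (3 * n + 3) * (3 * n + 4)) := by
    rw [show 3 * (n + 1) + 1 = 3 * n + 1 + 1 + 1 + 1 by ring]
    simp only [Nat.factorial_succ]
    push_cast
    ring
  have e2 : ((n + 1 + 1).factorial : ℝ) = ((n + 1).factorial : ℝ) * (n + 2) := by
    rw [Nat.factorial_succ]
    push_cast
    ring
  have e3 : ((2 * (n + 1) + 1).factorial : ℝ) = ((2 * n + 1).factorial : ℝ) *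
      ((2 * n + 2) * (2 * n + 3)) := by
    rw [show 2 * (n + 1) + 1 = 2 * n + 1 + 1 + 1 by ring]
    simp only [Nat.factorial_succ]
    push_cast
    ring
  rw [e1, e2, e3, pow_succ]
  have h4 : (2 * (n : ℝ) + 2) ≠ 0 := by positivity
  have h5 : ((n + 1).factorial : ℝ) ≠ 0 := by positivity
  have h6 : ((2 * n + 1).factorial : ℝ) ≠ 0 := by positivity
  have h7 : (2 * (n : ℝ) + 3) ≠ 0 := by positivity
  have h8 : ((n : ℝ) + 2) ≠ 0 := by positivity
  field_simp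
  ring

lemma T_zero : T 0 = 1 := by
  norm_num [T]

lemma cc_even (c0 c1 : ℝ) (k : ℕ) : cc c0 c1 (2 * k + 2) * 108 ^ (k + 1) = -(24 * c0 * T k) := by
  induction k with
  | zero =>
    rw [T_zero]
    simp only [zero_add, cc]
    norm_num
    ring
  | succ k ih =>
    rw [T_rec, show 2 * (k + 1) + 2 = (2 * k + 2) + 2 by ring, cc, pow_succ (108 : ℝ) (k + 1)]
    have h7 : (2 * (k : ℝ) + 3) ≠ 0 := by positivity
    have h8 : ((k : ℝ) + 2) ≠ 0 := by positivity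
    have h9 : cc c0 c1 (2 * k + 2) * ((((2 * k + 2 : ℕ) : ℝ) ^ 2 - 4 / 9) /
        ((((2 * k + 2 : ℕ) : ℝ) + 1) * (((2 * k + 2 : ℕ) : ℝ) + 2))) * (108 ^ (k + 1) * 108) =
        (cc c0 c1 (2 * k + 2) * 108 ^ (k + 1)) *
          (24 * (3 * k + 2) * (3 * k + 4) / ((2 * k + 3) * (k + 2))) := by
      push_cast
      have h10 : (2 * (k : ℝ) + 2 + 1) ≠ 0 := by positivity
      have h11 : (2 * (k : ℝ) + 2 + 2) ≠ 0 := by positivity
      field_simp
      ring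
    rw [h9, ih]
    ring

lemma s_succ (k : ℕ) : s (k + 1) =
    108 * s k * ((6 * k + 1) * (6 * k + 5) / (18 * (2 * k + 3) * (k + 1))) := by
  have h := u_succ k
  unfold u at h
  have h1 : (108 : ℚ) ^ k ≠ 0 := by positivity
  have h2 : 2 * s (k + 1) = 2 * (108 * s k *
      ((6 * k + 1) * (6 * k + 5) / (18 * (2 * k + 3) * (k + 1)))) := by
    rw [pow_succ, div_eq_iff (by positivity)] at h
    rw [h]
    field_simp
  linarith

lemma s_zero : s 0 = 1 / 2 := by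
  norm_num [s]

lemma cc_odd (c0 c1 : ℝ) (k : ℕ) : cc c0 c1 (2 * k + 1) * 108 ^ k = 2 * c1 * (s k : ℝ) := by
  induction k with
  | zero =>
    rw [s_zero]
    simp only [cc]
    norm_num
    ring
  | succ k ih =>
    rw [s_succ, show 2 * (k + 1) + 1 = (2 * k + 1) + 2 by ring, cc, pow_succ (108 : ℝ) k]
    have h7 : (2 * (k : ℝ) + 3) ≠ 0 := by positivity
    have h8 : ((k : ℝ) + 1) ≠ 0 := by positivity
    have h9 : cc c0 c1 (2 * k + 1) * ((((2 * k + 1 : ℕ) : ℝ) ^ 2 - 4 / 9) /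
        ((((2 * k + 1 : ℕ) : ℝ) + 1) * (((2 * k + 1 : ℕ) : ℝ) + 2))) * (108 ^ k * 108) =
        (cc c0 c1 (2 * k + 1) * 108 ^ k) *
          (108 * ((6 * k + 1) * (6 * k + 5) / (18 * (2 * k + 3) * (k + 1)))) := by
      push_cast
      have h10 : (2 * (k : ℝ) + 1 + 1) ≠ 0 := by positivity
      have h11 : (2 * (k : ℝ) + 1 + 2) ≠ 0 := by positivity
      field_simp
      ring
    rw [h9, ih]
    push_cast
    ring

lemma even_term {c : ℕ → ℝ} {x z : ℝ} (hz2 : z ^ 2 = 108 * x ^ 2)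
    (hc : ∀ k, c (2 * k + 2) * 108 ^ (k + 1) = -(24 * (1 / 24) * T k)) (k : ℕ) :
    c (2 * (k + 1)) * z ^ (2 * (k + 1)) = -((T k : ℝ) * x ^ (2 * (k + 1))) := by
  have h5 : z ^ (2 * (k + 1)) = 108 ^ (k + 1) * x ^ (2 * (k + 1)) := by
    rw [pow_mul, hz2, mul_pow, ← pow_mul]
  rw [h5, ← mul_assoc, show 2 * (k + 1) = 2 * k + 2 by ring, hc]
  ring

lemma odd_term {c : ℕ → ℝ} {x z w : ℝ} (hw : w ^ 2 = 3) (hz : z = 6 * w * x)
    (hc : ∀ k, c (2 * k + 1) * 108 ^ k = 2 * (w / 36) * (s k : ℝ)) (k : ℕ) :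
    c (2 * k + 1) * z ^ (2 * k + 1) = (s k : ℝ) * x ^ (2 * k + 1) := by
  have hz2 : z ^ 2 = 108 * x ^ 2 := by
    rw [hz]
    linear_combination (36 * x ^ 2) * hw
  have h5 : z ^ (2 * k + 1) = 108 ^ k * x ^ (2 * k) * z := by
    rw [pow_succ, pow_mul, hz2, mul_pow, ← pow_mul]
  have h6 : c (2 * k + 1) * z ^ (2 * k + 1) = (c (2 * k + 1) * 108 ^ k) * (x ^ (2 * k) * z) := by
    rw [h5]
    ring
  rw [h6, hc, hz, pow_succ]
  linear_combination ((s k : ℝ) * x ^ (2 * k) * x / 3) * hw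

lemma split_sum {c : ℕ → ℝ} {x z w : ℝ} (hw : w ^ 2 = 3) (hz : z = 6 * w * x)
    (hsum : Summable fun n => c n * z ^ n) (hc0 : c 0 = 1 / 24)
    (hce : ∀ k, c (2 * k + 2) * 108 ^ (k + 1) = -(24 * (1 / 24) * T k))
    (hco : ∀ k, c (2 * k + 1) * 108 ^ k = 2 * (w / 36) * (s k : ℝ)) :
    Summable (fun k : ℕ => (s k : ℝ) * x ^ (2 * k + 1)) ∧
    Summable (fun k : ℕ => (T k : ℝ) * x ^ (2 * (k + 1))) ∧
    ∑' n, c n * z ^ n =
      1 / 24 + ∑' k : ℕ, (s k : ℝ) * x ^ (2 * k + 1) - ∑' k : ℕ, (T k : ℝ) * x ^ (2 * (k + 1)) := by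
  have hz2 : z ^ 2 = 108 * x ^ 2 := by
    rw [hz]
    linear_combination (36 * x ^ 2) * hw
  have hev : Summable fun k => c (2 * k) * z ^ (2 * k) :=
    hsum.comp_injective (i := fun k => 2 * k) (fun a b h => by simpa using h)
  have hod : Summable fun k => c (2 * k + 1) * z ^ (2 * k + 1) :=
    hsum.comp_injective (i := fun k => 2 * k + 1) (fun a b h => by simpa using h)
  have e1 := even_term hz2 hce
  have e2 := odd_term hw hz hco
  have hS1 : Summable (fun k : ℕ => (s k : ℝ) * x ^ (2 * k + 1)) := hod.congr e2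
  have hev1 : Summable fun k => c (2 * (k + 1)) * z ^ (2 * (k + 1)) :=
    (summable_nat_add_iff (f := fun k => c (2 * k) * z ^ (2 * k)) 1).mpr hev
  have hS2 : Summable (fun k : ℕ => (T k : ℝ) * x ^ (2 * (k + 1))) := by
    refine hev1.neg.congr fun k => ?_
    rw [e1, neg_neg]
  refine ⟨hS1, hS2, ?_⟩
  have h7 : ∑' n : ℕ, c n * z ^ n = ∑' k : ℕ, c (2 * k) * z ^ (2 * k) +
      ∑' k : ℕ, c (2 * k + 1) * z ^ (2 * k + 1) := (tsum_even_add_odd (f := fun n => c n * z ^ n) hev hod).symm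
  have h8 : ∑' k : ℕ, c (2 * k) * z ^ (2 * k) = 1 / 24 - ∑' k : ℕ, (T k : ℝ) * x ^ (2 * (k + 1)) := by
    rw [hev.tsum_eq_zero_add, sub_eq_add_neg, ← tsum_neg, mul_zero, hc0, pow_zero, mul_one]
    congr 1
    exact tsum_congr e1
  rw [h7, h8, tsum_congr e2]
  ring

/-- the expansion -/
theorem expansion (x : ℝ) (hx : |x| ≤ 1 / (6 * Real.sqrt 3)) :
    Summable (fun k : ℕ => (s k : ℝ) * x ^ (2 * k + 1)) ∧
    Summable (fun k : ℕ => (T k : ℝ) * x ^ (2 * (k + 1))) ∧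
    1 / 12 * Real.cos (2 / 3 * Real.arccos (6 * Real.sqrt 3 * x)) =
      1 / 24 + ∑' k : ℕ, (s k : ℝ) * x ^ (2 * k + 1) - ∑' k : ℕ, (T k : ℝ) * x ^ (2 * (k + 1)) := by
  have h3 : Real.sqrt 3 ^ 2 = 3 := Real.sq_sqrt (by norm_num)
  have h30 : 0 < Real.sqrt 3 := Real.sqrt_pos.mpr (by norm_num)
  obtain ⟨z, hz⟩ : ∃ z : ℝ, z = 6 * Real.sqrt 3 * x := ⟨_, rfl⟩
  rw [← hz]
  have hz1 : |z| ≤ 1 := by
    rw [hz, abs_mul, abs_of_pos (by positivity : (0 : ℝ) < 6 * Real.sqrt 3)]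
    rw [le_div_iff₀ (by positivity)] at hx
    linarith
  have hsum : Summable fun n => cc (1 / 24) (Real.sqrt 3 / 36) n * z ^ n := by
    refine Summable.of_norm_bounded (summable_cc (1 / 24) (Real.sqrt 3 / 36)) fun n => ?_
    rw [Real.norm_eq_abs, abs_mul, abs_pow]
    have h1 : |z| ^ n ≤ 1 := pow_le_one₀ (abs_nonneg _) hz1
    exact mul_le_of_le_one_right (abs_nonneg _) h1
  have key := split_sum h3 hz hsum (by rw [cc]) (cc_even (1 / 24) (Real.sqrt 3 / 36))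
    (cc_odd (1 / 24) (Real.sqrt 3 / 36))
  refine ⟨key.1, key.2.1, ?_⟩
  rw [← key.2.2, closed_form _ _ z hz1, Real.arccos]
  have h7 : 2 / 3 * (Real.pi / 2 - Real.arcsin z) = Real.pi / 3 - 2 / 3 * Real.arcsin z := by ring
  rw [h7, Real.cos_sub, Real.cos_pi_div_three, Real.sin_pi_div_three]
  ring

lemma T_mod (p : ℕ) (hp : p.Prime) : (p : ℤ) ∣ T (p - 1) + 2 := by
  have hF : Fact p.Prime := ⟨hp⟩
  have h2 := hp.two_le
  have e1 : 3 * (p - 1) + 1 = 3 * p - 2 := by omega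
  have e2 : p - 1 + 1 = p := by omega
  have m1 : (3 * p - 2) % p = p - 2 ∧ (3 * p - 2) / p = 2 := by
    have h4 : 3 * p - 2 = (p - 2) + p * 2 := by omega
    rw [h4, Nat.add_mul_mod_self_left, Nat.mod_eq_of_lt (by omega), Nat.add_mul_div_left _ _ hp.pos,
      Nat.div_eq_of_lt (by omega)]
    exact ⟨rfl, rfl⟩
  have c1 : (((3 * p - 2).choose (p - 1) : ℕ) : ZMod p) = 0 := by
    have h4 := Choose.choose_modEq_choose_mod_mul_choose_div_nat (n := 3 * p - 2) (k := p - 1)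
      (p := p)
    rw [m1.1, m1.2, Nat.mod_eq_of_lt (by omega : p - 1 < p),
      Nat.choose_eq_zero_of_lt (by omega : p - 2 < p - 1), zero_mul] at h4
    have h5 := (ZMod.natCast_eq_natCast_iff _ _ _).mpr h4
    simpa using h5
  have c2 : (((3 * p - 2).choose p : ℕ) : ZMod p) = 2 := by
    have h4 := Choose.choose_modEq_choose_mod_mul_choose_div_nat (n := 3 * p - 2) (k := p)
      (p := p)
    rw [m1.1, m1.2, Nat.mod_self, Nat.div_self hp.pos] at h4
    have h5 := (ZMod.natCast_eq_natCast_iff _ _ _).mpr h4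
    simpa using h5
  have h3 : ((T (p - 1) + 2 : ℤ) : ZMod p) = 0 := by
    unfold T
    rw [e1, e2]
    push_cast
    rw [c1, c2]
    by_cases hp2 : p = 2
    · subst hp2
      have h9 : (2 : ZMod 2) = 0 := by
        have := ZMod.natCast_self 2
        exact_mod_cast this
      linear_combination (16 ^ (2 - 1) * (-1) + 1 : ZMod 2) * h9
    · have h4 : (16 : ZMod p) ≠ 0 := by
        intro h
        have h5 : ((16 : ℕ) : ZMod p) = 0 := by exact_mod_cast h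
        rw [ZMod.natCast_eq_zero_iff, show 16 = 2 ^ 4 by norm_num] at h5
        have h6 := hp.dvd_of_dvd_pow h5
        exact hp2 ((Nat.prime_dvd_prime_iff_eq hp Nat.prime_two).mp h6)
      rw [ZMod.pow_card_sub_one_eq_one h4]
      ring
  exact (ZMod.intCast_zmod_eq_zero_iff_dvd _ _).mp h3

end Pool.Agent.V11304.SQ
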