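import Pool.Agent.V11304.SQ.Cong

/-!
# The two blocks of the sum modulo `p`
-/

set_option autoImplicit false

namespace Pool.Agent.V11304.SQ

open Finset Pool.Agent.V11304.PI

section
variable {p : ℕ} [hp : Fact p.Prime]

lemma ok_unique {x : ℚ} {y y' : ZMod p} (h : Ok p x y) (h' : Ok p x y') : y = y' := by
  obtain ⟨a, b, hb, hx, hy⟩ := h
  obtain ⟨a', b', hb', hx', hy'⟩ := h'
  have hb0 := ne_of_cast hb
  have hb0' := ne_of_cast hb'
  have h1 : (a : ℚ) * b' = a' * b := by
    rw [hx, div_eq_div_iff hb0 hb0'] at hx'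
    exact hx'
  have h2 : (a : ZMod p) * b' = a' * b := by
    have : a * b' = a' * b := by exact_mod_cast h1
    exact_mod_cast congrArg (Int.cast (R := ZMod p)) this
  rw [← hy, ← hy'] at h2
  have h3 : y * ((b : ZMod p) * b') = y' * (b * b') := by linear_combination h2
  exact mul_right_cancel₀ (mul_ne_zero hb hb') h3

lemma block1 {m n : ℕ} (hm : p = 2 * m + 1) (h3 : 3 < p) (hn : p = 6 * n + 1 ∨ p = 6 * n + 5)
    (k : ℕ) : k < m → ∃ y, Ok p (u k) y ∧ Ok p (w n k) y := by
  have hn0 : ((6 * n + 1 : ZMod p)) * (6 * n + 5) = 0 := by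
    have h0 : ((p : ℕ) : ZMod p) = 0 := ZMod.natCast_self p
    rcases hn with hn | hn
    · have h1 : ((6 * n + 1 : ℕ) : ZMod p) = 0 := by rw [← hn]; exact h0
      push_cast at h1
      rw [h1, zero_mul]
    · have h1 : ((6 * n + 5 : ℕ) : ZMod p) = 0 := by rw [← hn]; exact h0
      push_cast at h1
      rw [h1, mul_zero]
  induction k with
  | zero =>
    intro _
    refine ⟨1, ?_, ?_⟩
    · rw [u_zero]
      exact ok_one
    · have : w n 0 = 1 := by simp [w]
      rw [this]
      exact ok_one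
  | succ k ih =>
    intro hk
    obtain ⟨y, h1, h2⟩ := ih (by omega)
    have d1 : ((2 * k + 3 : ℕ) : ZMod p) ≠ 0 := natCast_ne (by omega) (by omega)
    have d2 : ((k + 1 : ℕ) : ZMod p) ≠ 0 := natCast_ne (by omega) (by omega)
    have d3 : ((2 : ℕ) : ZMod p) ≠ 0 := natCast_ne (by omega) (by omega)
    have d4 : ((3 : ℕ) : ZMod p) ≠ 0 := natCast_ne (by omega) (by omega)
    push_cast at d1 d2 d3 d4
    have d5 : (18 : ZMod p) ≠ 0 := by
      rw [show (18 : ZMod p) = 2 * 3 * 3 by norm_num]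
      exact mul_ne_zero (mul_ne_zero d3 d4) d4
    have o1 := ok_nat (p := p) ((6 * k + 1) * (6 * k + 5))
    have o2 := ok_nat (p := p) (18 * (2 * k + 3) * (k + 1))
    have o3 := ok_int (p := p) (-2 * (n + k + 1) * ((n : ℤ) - k))
    have o4 := ok_nat (p := p) ((2 * k + 3) * (k + 1))
    push_cast at o1 o2 o3 o4
    have e1 := o1.div o2 (mul_ne_zero (mul_ne_zero d5 d1) d2)
    have e2 := o3.div o4 (mul_ne_zero d1 d2)
    refine ⟨y * ((6 * k + 1) * (6 * k + 5) / (18 * (2 * k + 3) * (k + 1))), ?_, ?_⟩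
    · rw [u_succ]
      exact h1.mul e1
    · rw [w_succ]
      refine (h2.mul e2).congr ?_
      congr 1
      rw [div_eq_div_iff (mul_ne_zero d1 d2) (mul_ne_zero (mul_ne_zero d5 d1) d2)]
      linear_combination (-(2 * (k : ZMod p) + 3) * (k + 1)) * hn0

lemma block2 {m n : ℕ} (hm : p = 2 * m + 1) (h3 : 3 < p) (hn1 : 1 ≤ n)
    (hn : 3 * n + 1 = p ∨ 3 * n = p + 1) {U : ZMod p} (hU : Ok p (u m) U)
    (j : ℕ) : j ≤ m → ∃ y, Ok p (u (m + j)) (U * y) ∧ Ok p (z n j) y := by
  have h0 : ((p : ℕ) : ZMod p) = 0 := ZMod.natCast_self p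
  have hn0 : 9 * (n : ZMod p) ^ 2 = 1 := by
    rcases hn with hn | hn
    · have h1 : ((3 * n + 1 : ℕ) : ZMod p) = 0 := by rw [hn]; exact h0
      push_cast at h1
      linear_combination (3 * (n : ZMod p) - 1) * h1
    · have h1 : ((3 * n : ℕ) : ZMod p) = ((p + 1 : ℕ) : ZMod p) := by rw [hn]
      push_cast at h1
      rw [h0, zero_add] at h1
      linear_combination (3 * (n : ZMod p) + 1) * h1
  have hm0 : 2 * (m : ZMod p) + 1 = 0 := by
    have h1 : ((2 * m + 1 : ℕ) : ZMod p) = 0 := by rw [← hm]; exact h0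
    push_cast at h1
    exact h1
  have d3 : ((2 : ℕ) : ZMod p) ≠ 0 := natCast_ne (by omega) (by omega)
  have d4 : ((3 : ℕ) : ZMod p) ≠ 0 := natCast_ne (by omega) (by omega)
  push_cast at d3 d4
  have d5 : (18 : ZMod p) ≠ 0 := by
    rw [show (18 : ZMod p) = 2 * 3 * 3 by norm_num]
    exact mul_ne_zero (mul_ne_zero d3 d4) d4
  induction j with
  | zero =>
    intro _
    refine ⟨1, ?_, ?_⟩
    · rw [mul_one]
      exact hU
    · rw [z_zero n hn1]
      exact ok_one
  | succ j ih =>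
    intro hj
    obtain ⟨y, h1, h2⟩ := ih (by omega)
    have d1 : ((2 * j + 1 : ℕ) : ZMod p) ≠ 0 := natCast_ne (by omega) (by omega)
    have d2 : ((j + 1 : ℕ) : ZMod p) ≠ 0 := natCast_ne (by omega) (by omega)
    push_cast at d1 d2
    have d6 : (2 * ((m : ZMod p) + j) + 3) ≠ 0 := by
      intro h
      have h4 : 2 * ((j : ZMod p) + 1) = 0 := by linear_combination h - hm0
      exact (mul_ne_zero d3 d2) h4
    have d7 : ((m : ZMod p) + j + 1) ≠ 0 := by
      intro h
      apply d1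
      linear_combination 2 * h - hm0
    have o1 := ok_nat (p := p) ((6 * (m + j) + 1) * (6 * (m + j) + 5))
    have o2 := ok_nat (p := p) (18 * (2 * (m + j) + 3) * (m + j + 1))
    have o3 := ok_int (p := p) (-2 * ((n : ℤ) ^ 2 - j ^ 2))
    have o4 := ok_nat (p := p) ((2 * j + 1) * (j + 1))
    push_cast at o1 o2 o3 o4
    have e1 := o1.div o2 (mul_ne_zero (mul_ne_zero d5 d6) d7)
    have e2 := o3.div o4 (mul_ne_zero d1 d2)
    refine ⟨y * (-2 * ((n : ZMod p) ^ 2 - j ^ 2) / ((2 * j + 1) * (j + 1))), ?_, ?_⟩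
    · rw [show m + (j + 1) = (m + j) + 1 by ring, u_succ]
      push_cast
      refine (h1.mul e1).congr ?_
      rw [← mul_assoc]
      congr 1
      rw [div_eq_div_iff (mul_ne_zero (mul_ne_zero d5 d6) d7) (mul_ne_zero d1 d2)]
      apply mul_left_cancel₀ d3
      linear_combination (18 * ((2 * (m : ZMod p) + 1) + 4 * j) * (2 * j + 1) * (j + 1) +
        36 * ((n : ZMod p) ^ 2 - j ^ 2) * ((2 * (m : ZMod p) + 1) + 4 * j + 3)) * hm0 +
        8 * (2 * (j : ZMod p) + 1) * (j + 1) * hn0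
    · rw [z_succ' n j hn1]
      exact h2.mul e2

lemma asc_cast (q k : ℕ) : (((q * p + 1).ascFactorial k : ℕ) : ZMod p) = (k.factorial : ℕ) := by
  have h1 : ∀ a : ℕ, ((a.ascFactorial k : ℕ) : ZMod p) =
      (ascPochhammer (ZMod p) k).eval (a : ZMod p) := fun a => Nat.cast_ascFactorial _ _ _
  rw [h1, ← Nat.one_ascFactorial, h1]
  simp

lemma ok_um {m : ℕ} (hm : p = 2 * m + 1) (h3 : 3 < p) :
    Ok p (u m) ((m : ZMod p) / 108 ^ m) := by
  have h0 : ((p : ℕ) : ZMod p) = 0 := ZMod.natCast_self p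
  have hp0 : (p : ℚ) ≠ 0 := by
    have : 0 < p := by omega
    positivity
  have hm0 : 2 * (m : ZMod p) + 1 = 0 := by
    have h1 : ((2 * m + 1 : ℕ) : ZMod p) = 0 := by rw [← hm]; exact h0
    push_cast at h1
    exact h1
  have W : ((p - 1).factorial : ZMod p) = -1 := ZMod.wilsons_lemma p
  set A : ℕ := (1 * p + 1).ascFactorial (p - 1) with hA
  set B : ℕ := (2 * p + 1).ascFactorial (p - 3) with hB
  set D : ℕ := (1 * p + 1).ascFactorial (m - 1) with hD
  have f1 : p.factorial = p * (p - 1).factorial := by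
    rw [Nat.mul_factorial_pred (by omega)]
  have f2 : (2 * p).factorial = 2 * p * (p.factorial * A) := by
    have e1 : (2 * p - 1).factorial = p.factorial * A := by
      rw [hA, one_mul, Nat.factorial_mul_ascFactorial]
      congr 1
      omega
    rw [← e1, Nat.mul_factorial_pred (by omega)]
  have f3 : (6 * m).factorial = (2 * p).factorial * B := by
    rw [hB, Nat.factorial_mul_ascFactorial]
    congr 1
    omega
  have f4 : (3 * m).factorial = p.factorial * D := by
    rw [hD, one_mul, Nat.factorial_mul_ascFactorial]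
    congr 1
    omega
  have f5 : m.factorial = m * (m - 1).factorial := by
    rw [Nat.mul_factorial_pred (by omega)]
  have hpm : 2 * (m : ℚ) + 1 = p := by
    rw [hm]
    push_cast
    ring
  have hF : ((p - 1).factorial : ℚ) ≠ 0 := by positivity
  have hD0 : (D : ℚ) ≠ 0 := by
    have : D ≠ 0 := (Nat.ascFactorial_pos _ _).ne'
    exact_mod_cast this
  have key : u m = (2 * ((p - 1).factorial : ℚ) * A * B * (m * ((m - 1).factorial : ℚ))) /
      (((p - 1).factorial : ℚ) * D * ((p - 1).factorial : ℚ) ^ 2 * 108 ^ m) := by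
    unfold u s
    rw [f3, f4, f2, f1, f5, hpm, show 2 * m = p - 1 by omega]
    push_cast
    field_simp
  rw [key]
  have cA : (A : ZMod p) = -1 := by
    rw [hA, asc_cast, W]
  have cB : (B : ZMod p) = ((p - 3).factorial : ℕ) := by
    rw [hB, asc_cast]
  have cD : (D : ZMod p) = ((m - 1).factorial : ℕ) := by
    rw [hD, asc_cast]
  have cB2 : 2 * (B : ZMod p) = -1 := by
    have e1 : (p - 1).factorial = (p - 1) * ((p - 2) * (p - 3).factorial) := by
      rw [show p - 3 = (p - 2) - 1 by omega, Nat.mul_factorial_pred (by omega),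
        show p - 2 = (p - 1) - 1 by omega, Nat.mul_factorial_pred (by omega)]
    have e2 := congrArg (Nat.cast (R := ZMod p)) e1
    push_cast at e2
    rw [W, ← cB, Nat.cast_sub (by omega), Nat.cast_sub (by omega), h0] at e2
    push_cast at e2
    linear_combination -e2
  have hm1 : ((m - 1).factorial : ZMod p) ≠ 0 := by
    intro h
    rw [ZMod.natCast_eq_zero_iff, hp.out.dvd_factorial] at h
    omega
  have d3 : ((2 : ℕ) : ZMod p) ≠ 0 := natCast_ne (by omega) (by omega)
  have d4 : ((3 : ℕ) : ZMod p) ≠ 0 := natCast_ne (by omega) (by omega)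
  push_cast at d3 d4
  have d5 : (108 : ZMod p) ≠ 0 := by
    rw [show (108 : ZMod p) = 2 * 2 * 3 * 3 * 3 by norm_num]
    exact mul_ne_zero (mul_ne_zero (mul_ne_zero (mul_ne_zero d3 d3) d4) d4) d4
  have o1 := ok_nat (p := p) (2 * (p - 1).factorial * A * B * (m * (m - 1).factorial))
  have o2 := ok_nat (p := p) ((p - 1).factorial * D * (p - 1).factorial ^ 2 * 108 ^ m)
  push_cast at o1 o2
  rw [W, cD, cA] at *
  have hne : (-1 * ((m - 1).factorial : ZMod p) * (-1) ^ 2 * 108 ^ m) ≠ 0 := by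
    refine mul_ne_zero (mul_ne_zero (mul_ne_zero (by simp) hm1) (by simp)) (pow_ne_zero _ d5)
  refine (o1.div o2 hne).congr ?_
  rw [div_eq_div_iff hne (pow_ne_zero _ d5)]
  linear_combination ((m : ZMod p) * ((m - 1).factorial : ZMod p) * 108 ^ m) * cB2

end

end Pool.Agent.V11304.SQ
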