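import Pool.Agent.V11304.SQ.Blocks

/-!
# The sum of `s_k / 108^k` modulo `p`: conclusion
-/

set_option autoImplicit false

namespace Pool.Agent.V11304.SQ

open Finset Pool.Agent.V11304.PI

section
variable {p : ℕ} [hp : Fact p.Prime]

lemma total {m n l : ℕ} (hm : p = 2 * m + 1) (h3 : 3 < p) (hn : p = 6 * n + 1 ∨ p = 6 * n + 5)
    (hl1 : 1 ≤ l) (hl : 3 * l + 1 = p ∨ 3 * l = p + 1) :
    Ok p (∑ k ∈ range p, u k) ((-1) ^ n / (2 * n + 1) + (m : ZMod p) / 108 ^ m) := by
  have hle : Even l := by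
    rw [Nat.even_iff]
    have := hp.out.eq_two_or_odd
    omega
  have e0 : ∑ k ∈ range p, u k = ∑ k ∈ range m, u k + ∑ j ∈ range (m + 1), u (m + j) := by
    rw [show range p = range (m + (m + 1)) by rw [hm]; congr 1; ring, sum_range_add]
  rw [e0]
  apply Ok.add
  · have h1 : ∀ k ∈ range m, ∃ y, Ok p (u k) y ∧ Ok p (w n k) y :=
      fun k hk => block1 hm h3 hn k (mem_range.mp hk)
    choose! y hy using h1
    have h2 := Ok.sum (range m) (fun k hk => (hy k hk).1)
    have h4 := Ok.sum (range m) (fun k hk => (hy k hk).2)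
    have d1 : ((2 * n + 1 : ℕ) : ZMod p) ≠ 0 := natCast_ne (by omega) (by omega)
    have h5 : ∑ k ∈ range m, w n k = (-1) ^ n / (2 * n + 1) := by
      have h6 := sum_w n m (by omega)
      have h7 : (2 * (n : ℚ) + 1) ≠ 0 := by positivity
      rw [eq_div_iff h7, mul_comm]
      exact h6
    have o1 := ok_int (p := p) ((-1) ^ n)
    have o2 := ok_nat (p := p) (2 * n + 1)
    push_cast at o1 o2 d1
    have h8 := o1.div o2 d1
    rw [h5] at h4
    exact h2.congr (ok_unique h4 h8)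
  · have hU := ok_um hm h3
    have h1 : ∀ j ∈ range (m + 1), ∃ y, Ok p (u (m + j)) ((m : ZMod p) / 108 ^ m * y) ∧
        Ok p (z l j) y := fun j hj => block2 hm h3 hl1 hl hU j (by
          have := mem_range.mp hj
          omega)
    choose! y hy using h1
    have h2 := Ok.sum (range (m + 1)) (fun k hk => (hy k hk).1)
    have h4 := Ok.sum (range (m + 1)) (fun k hk => (hy k hk).2)
    rw [sum_z l (m + 1) hl1 (by omega), hle.neg_one_pow] at h4
    refine h2.congr ?_
    rw [← mul_sum, ok_unique h4 ok_one, mul_one]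

lemma sum_s : ∑ k ∈ Ico 1 p, s k / 108 ^ k = (∑ k ∈ range p, u k - 1) / 2 := by
  have hpos := hp.out.pos
  rw [range_eq_Ico, sum_eq_sum_Ico_succ_bot hpos, u_zero]
  have h1 : ∀ k, s k / 108 ^ k = u k / 2 := by
    intro k
    unfold u
    ring
  rw [sum_congr rfl fun k _ => h1 k, ← sum_div]
  ring

lemma jac3 (h3 : 3 < p) : (jacobiSym 3 p = 1 ∧ (p % 12 = 1 ∨ p % 12 = 11)) ∨
    (jacobiSym 3 p = -1 ∧ (p % 12 = 5 ∨ p % 12 = 7)) := by
  have hodd : p % 2 = 1 := by
    have := hp.out.eq_two_or_odd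
    omega
  have h30 : p % 3 ≠ 0 := by
    intro h
    have := (Nat.prime_dvd_prime_iff_eq Nat.prime_three hp.out).mp (Nat.dvd_of_mod_eq_zero h)
    omega
  have hJ : jacobiSym p 3 = jacobiSym ((p % 3 : ℕ) : ℤ) 3 := by
    rw [jacobiSym.mod_left]
    congr 1
  have h44 : p % 4 = 1 ∨ p % 4 = 3 := by omega
  have h33 : p % 3 = 1 ∨ p % 3 = 2 := by omega
  have j1 : jacobiSym ((1 : ℕ) : ℤ) 3 = 1 := by norm_num
  have j2 : jacobiSym ((2 : ℕ) : ℤ) 3 = -1 := by norm_num
  rcases h44 with h4 | h4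
  · have h5 : jacobiSym 3 p = jacobiSym p 3 := by
      have := jacobiSym.quadratic_reciprocity_one_mod_four h4 (b := 3) (by decide)
      rw [this]
      norm_num
    rcases h33 with h6 | h6
    · left
      rw [h5, hJ, h6, j1]
      exact ⟨rfl, by omega⟩
    · right
      rw [h5, hJ, h6, j2]
      exact ⟨rfl, by omega⟩
  · have h5 : jacobiSym 3 p = - jacobiSym p 3 := by
      have := jacobiSym.quadratic_reciprocity_three_mod_four (a := 3) (by norm_num) h4
      exact_mod_cast this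
    rcases h33 with h6 | h6
    · right
      rw [h5, hJ, h6, j1]
      exact ⟨rfl, by omega⟩
    · left
      rw [h5, hJ, h6, j2]
      exact ⟨by norm_num, by omega⟩

lemma pow108 {m : ℕ} (hm : p = 2 * m + 1) (h3 : 3 < p) :
    (108 : ZMod p) ^ m = (jacobiSym 3 p : ℤ) := by
  have h1 := legendreSym.eq_pow p 108
  rw [jacobiSym.legendreSym.to_jacobiSym, show p / 2 = m by omega] at h1
  push_cast at h1
  have h4 : (6 : ℤ).gcd p = 1 := by
    have h5 : Nat.Coprime p 6 := by
      rw [hp.out.coprime_iff_not_dvd]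
      intro h
      rw [show (6 : ℕ) = 2 * 3 by norm_num, hp.out.dvd_mul] at h
      rcases h with h | h
      · have := Nat.le_of_dvd (by norm_num) h
        omega
      · have := Nat.le_of_dvd (by norm_num) h
        omega
    exact h5.symm
  rw [← h1, show (108 : ℤ) = 3 * 6 ^ 2 by norm_num, jacobiSym.mul_left, jacobiSym.sq_one' h4,
    mul_one]

/-- the value modulo `p` -/
theorem q_one (h3 : 3 < p) :
    ((p % 12 = 1 ∨ p % 12 = 11) → Dv p 1 (∑ k ∈ Ico 1 p, s k / 108 ^ k)) ∧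
    ((p % 12 = 5 ∨ p % 12 = 7) → Dv p 1 (∑ k ∈ Ico 1 p, s k / 108 ^ k + 1)) := by
  have hodd : p % 2 = 1 := by
    have := hp.out.eq_two_or_odd
    omega
  obtain ⟨m, hm⟩ : ∃ m, p = 2 * m + 1 := ⟨p / 2, by omega⟩
  have h0 : ((p : ℕ) : ZMod p) = 0 := ZMod.natCast_self p
  have hm0 : 2 * (m : ZMod p) + 1 = 0 := by
    have h1 : ((2 * m + 1 : ℕ) : ZMod p) = 0 := by rw [← hm]; exact h0
    push_cast at h1
    exact h1
  have d3 : ((2 : ℕ) : ZMod p) ≠ 0 := natCast_ne (by omega) (by omega)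
  have d4 : ((3 : ℕ) : ZMod p) ≠ 0 := natCast_ne (by omega) (by omega)
  push_cast at d3 d4
  have h108 := pow108 hm h3
  have hjac := jac3 (p := p) h3
  -- the value of `∑ u k`
  have hval : Ok p (∑ k ∈ range p, u k) (((jacobiSym 3 p : ℤ) : ZMod p)) := by
    have hc : ((jacobiSym 3 p : ℤ) : ZMod p) * ((jacobiSym 3 p : ℤ) : ZMod p) = 1 := by
      rcases hjac with ⟨h, -⟩ | ⟨h, -⟩ <;> rw [h] <;> norm_num
    have hc0 : ((jacobiSym 3 p : ℤ) : ZMod p) ≠ 0 := by
      intro h
      rw [h, zero_mul] at hc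
      exact zero_ne_one hc
    have hmod : p % 6 = 1 ∨ p % 6 = 5 := by
      rcases hjac with ⟨-, h⟩ | ⟨-, h⟩ <;> omega
    rcases hmod with h6 | h6
    · obtain ⟨n, hn⟩ : ∃ n, p = 6 * n + 1 := ⟨p / 6, by omega⟩
      have h1 := total (l := 2 * n) hm h3 (Or.inl hn) (by omega) (Or.inl (by omega))
      refine h1.congr ?_
      rw [h108]
      have hn6 : 6 * (n : ZMod p) + 1 = 0 := by
        have h1 : ((6 * n + 1 : ℕ) : ZMod p) = 0 := by rw [← hn]; exact h0
        push_cast at h1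
        exact h1
      have d1 : ((2 * n + 1 : ℕ) : ZMod p) ≠ 0 := natCast_ne (by omega) (by omega)
      push_cast at d1
      have hs : (-1 : ZMod p) ^ n = ((jacobiSym 3 p : ℤ) : ZMod p) := by
        rcases hjac with ⟨h, h'⟩ | ⟨h, h'⟩
        · rw [h, Even.neg_one_pow (by rw [Nat.even_iff]; omega)]
          norm_num
        · rw [h, Odd.neg_one_pow (by rw [Nat.odd_iff]; omega)]
          norm_num
      rw [hs, div_add_div _ _ d1 hc0, div_eq_iff (mul_ne_zero d1 hc0)]
      have hx : ((jacobiSym 3 p : ℤ) : ZMod p) * ((jacobiSym 3 p : ℤ) : ZMod p) = 1 := hc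
      apply mul_left_cancel₀ (mul_ne_zero d3 d4)
      linear_combination (6 - 6 * (2 * (n : ZMod p) + 1)) * hx +
        (3 * (2 * (n : ZMod p) + 1)) * hm0 - 3 * hn6
    · obtain ⟨n, hn⟩ : ∃ n, p = 6 * n + 5 := ⟨p / 6, by omega⟩
      have h1 := total (l := 2 * n + 2) hm h3 (Or.inr hn) (by omega) (Or.inr (by omega))
      refine h1.congr ?_
      rw [h108]
      have hn6 : 6 * (n : ZMod p) + 5 = 0 := by
        have h1 : ((6 * n + 5 : ℕ) : ZMod p) = 0 := by rw [← hn]; exact h0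
        push_cast at h1
        exact h1
      have d1 : ((2 * n + 1 : ℕ) : ZMod p) ≠ 0 := natCast_ne (by omega) (by omega)
      push_cast at d1
      have hs : (-1 : ZMod p) ^ n = -((jacobiSym 3 p : ℤ) : ZMod p) := by
        rcases hjac with ⟨h, h'⟩ | ⟨h, h'⟩
        · rw [h, Odd.neg_one_pow (by rw [Nat.odd_iff]; omega)]
          norm_num
        · rw [h, Even.neg_one_pow (by rw [Nat.even_iff]; omega)]
          norm_num
      rw [hs, div_add_div _ _ d1 hc0, div_eq_iff (mul_ne_zero d1 hc0)]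
      have hx : ((jacobiSym 3 p : ℤ) : ZMod p) * ((jacobiSym 3 p : ℤ) : ZMod p) = 1 := hc
      apply mul_left_cancel₀ (mul_ne_zero d3 d4)
      linear_combination (-6 - 6 * (2 * (n : ZMod p) + 1)) * hx +
        (3 * (2 * (n : ZMod p) + 1)) * hm0 - 3 * hn6
  have o2 := (ok_nat (p := p) 2)
  push_cast at o2
  have h5 := (hval.sub ok_one).div o2 d3
  rw [← sum_s] at h5
  constructor
  · intro h
    have hj : jacobiSym 3 p = 1 := by
      rcases hjac with ⟨h1, h'⟩ | ⟨h1, h'⟩
      · exact h1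
      · omega
    rw [hj] at h5
    apply Ok.dv
    refine h5.congr ?_
    norm_num
  · intro h
    have hj : jacobiSym 3 p = -1 := by
      rcases hjac with ⟨h1, h'⟩ | ⟨h1, h'⟩
      · omega
      · exact h1
    rw [hj] at h5
    apply Ok.dv
    refine (h5.add ok_one).congr ?_
    rw [div_add_one d3]
    norm_num

end

end Pool.Agent.V11304.SQ
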