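import Mathlib

/-!
# The power series of `cos (α arcsin z)` and `sin (α arcsin z)` for `α = 2/3`
-/

set_option autoImplicit false

namespace Pool.Agent.V11304.SQ

open Filter Topology

/-- differentiation of a power series with coefficients of polynomial growth -/
lemma hasDerivAt_pow_series (c : ℕ → ℝ) (C : ℝ) (K : ℕ) (hc : ∀ n, |c n| ≤ C * ((n : ℝ) + 1) ^ K)
    (z : ℝ) (hz : |z| < 1) :
    HasDerivAt (fun y => ∑' n, c n * y ^ n) (∑' n : ℕ, (((n : ℝ) + 1) * c (n + 1)) * z ^ n) z := by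
  obtain ⟨r, hzr, hr1⟩ := exists_between hz
  have hr0 : 0 < r := (abs_nonneg z).trans_lt hzr
  have hC : 0 ≤ C := by
    have := hc 0
    simp at this
    exact (abs_nonneg _).trans this
  have hsum : Summable fun n : ℕ => C * ((n : ℝ) + 1) ^ (K + 1) * r ^ n * r⁻¹ := by
    have h1 := summable_pow_mul_geometric_of_norm_lt_one (R := ℝ) (K + 1) (r := r)
      (by rw [Real.norm_eq_abs, abs_of_pos hr0]; exact hr1)
    have h2 := (summable_nat_add_iff 1).mpr h1
    have h3 := (h2.mul_left (C * r⁻¹ * r⁻¹))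
    refine h3.congr fun n => ?_
    push_cast
    rw [pow_succ r n]
    field_simp
  have key := hasDerivAt_tsum_of_isPreconnected (𝕜 := ℝ) (F := ℝ)
    (g := fun (n : ℕ) (y : ℝ) => c n * y ^ n) (g' := fun (n : ℕ) (y : ℝ) => c n * (n * y ^ (n - 1)))
    (u := fun n : ℕ => C * ((n : ℝ) + 1) ^ (K + 1) * r ^ n * r⁻¹)
    (t := Metric.ball 0 r) (y₀ := 0) (y := z) hsum Metric.isOpen_ball
    (convex_ball 0 r).isPreconnected
    (fun n y _ => (hasDerivAt_pow n y).const_mul (c n)) ?_ (Metric.mem_ball_self hr0) ?_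
    (by simpa using hzr)
  · have h1 : ∑' n : ℕ, c n * ((n : ℝ) * z ^ (n - 1)) =
        ∑' n : ℕ, (((n : ℝ) + 1) * c (n + 1)) * z ^ n := by
      rw [tsum_eq_zero_add']
      · simp only [CharP.cast_eq_zero, zero_mul, mul_zero, zero_add]
        apply tsum_congr
        intro n
        push_cast
        ring
      · have h2 := (summable_nat_add_iff 1).mpr hsum
        refine Summable.of_norm_bounded h2 fun n => ?_
        rw [Real.norm_eq_abs, abs_mul, abs_mul, abs_pow, Nat.add_sub_cancel, Nat.abs_cast]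
        push_cast
        calc |c (n + 1)| * (((n : ℝ) + 1) * |z| ^ n)
            ≤ (C * (((n + 1 : ℕ) : ℝ) + 1) ^ K) * ((((n : ℝ) + 1) + 1) * r ^ n) := by
              apply mul_le_mul (hc (n + 1)) _ (by positivity) (by positivity)
              apply mul_le_mul (by linarith) _ (by positivity) (by positivity)
              exact pow_le_pow_left₀ (abs_nonneg _) hzr.le _
          _ = C * ((n : ℝ) + 1 + 1) ^ (K + 1) * r ^ (n + 1) * r⁻¹ := by
              push_cast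
              rw [pow_succ r n, pow_succ _ K]
              field_simp
    rw [h1] at key
    exact key
  · intro n y hy
    have hy' : |y| < r := by simpa using hy
    rw [Real.norm_eq_abs, abs_mul, abs_mul, abs_pow, Nat.abs_cast]
    rcases Nat.eq_zero_or_pos n with h | h
    · subst h
      simp
      positivity
    · calc |c n| * ((n : ℝ) * |y| ^ (n - 1))
          ≤ (C * ((n : ℝ) + 1) ^ K) * (((n : ℝ) + 1) * r ^ (n - 1)) := by
            apply mul_le_mul (hc n) _ (by positivity) (by positivity)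
            apply mul_le_mul (by linarith) _ (by positivity) (by positivity)
            exact pow_le_pow_left₀ (abs_nonneg _) hy'.le _
        _ = C * ((n : ℝ) + 1) ^ (K + 1) * r ^ n * r⁻¹ := by
            obtain ⟨m, rfl⟩ : ∃ m, n = m + 1 := ⟨n - 1, by omega⟩
            rw [Nat.add_sub_cancel, pow_succ r m, pow_succ _ K]
            field_simp
  · apply summable_of_ne_finset_zero (s := {0})
    intro n hn
    have hn0 : n ≠ 0 := by simpa using hn
    simp [hn0]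

lemma summable_pow_series (c : ℕ → ℝ) (C : ℝ) (K : ℕ) (hc : ∀ n, |c n| ≤ C * ((n : ℝ) + 1) ^ K)
    (z : ℝ) (hz : |z| < 1) : Summable fun n => c n * z ^ n := by
  have hC : 0 ≤ C := by
    have := hc 0
    simp at this
    exact (abs_nonneg _).trans this
  rcases eq_or_ne z 0 with h0 | h0
  · apply summable_of_ne_finset_zero (s := {0})
    intro n hn
    have hn0 : n ≠ 0 := by simpa using hn
    simp [hn0, h0]
  have hz0 : 0 < |z| := abs_pos.mpr h0
  have h1 := summable_pow_mul_geometric_of_norm_lt_one (R := ℝ) K (r := |z|)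
    (by rw [Real.norm_eq_abs, abs_abs]; exact hz)
  have h2 := (summable_nat_add_iff 1).mpr h1
  have h3 := (h2.mul_left (C * |z|⁻¹))
  refine Summable.of_norm_bounded h3 fun n => ?_
  rw [Real.norm_eq_abs, abs_mul, abs_pow]
  calc |c n| * |z| ^ n ≤ (C * ((n : ℝ) + 1) ^ K) * |z| ^ n :=
        mul_le_mul_of_nonneg_right (hc n) (by positivity)
    _ = C * |z|⁻¹ * (((n + 1 : ℕ) : ℝ) ^ K * |z| ^ (n + 1)) := by
        push_cast
        rw [pow_succ |z| n]
        field_simp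

/-- the coefficients -/
noncomputable def cc (c0 c1 : ℝ) : ℕ → ℝ
  | 0 => c0
  | 1 => c1
  | (n + 2) => cc c0 c1 n * (((n : ℝ) ^ 2 - 4 / 9) / (((n : ℝ) + 1) * ((n : ℝ) + 2)))

lemma cc_rec (c0 c1 : ℝ) (n : ℕ) :
    ((n : ℝ) + 1) * (((n : ℝ) + 2) * cc c0 c1 (n + 2)) = ((n : ℝ) ^ 2 - 4 / 9) * cc c0 c1 n := by
  rw [cc]
  have h1 : ((n : ℝ) + 1) ≠ 0 := by positivity
  have h2 : ((n : ℝ) + 2) ≠ 0 := by positivity
  field_simp

lemma poly_ineq (x : ℝ) (hx : 0 ≤ x) :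
    (x ^ 2 - 4 / 9) ^ 2 * ((x + 4) * (x + 5)) ≤ ((x + 1) * (x + 2)) ^ 3 := by
  have h : ((x + 1) * (x + 2)) ^ 3 - (x ^ 2 - 4 / 9) ^ 2 * ((x + 4) * (x + 5)) =
      (13 + 8 / 9) * x ^ 4 + 71 * x ^ 3 + (66 + 160 / 9 - 16 / 81) * x ^ 2 +
        (36 - 16 / 9) * x + (8 - 320 / 81) := by ring
  have h2 : 0 ≤ (13 + 8 / 9) * x ^ 4 + 71 * x ^ 3 + (66 + 160 / 9 - 16 / 81) * x ^ 2 +
        (36 - 16 / 9) * x + (8 - 320 / 81) := by positivity
  linarith

/-- the coefficients are `O(n^(-3/2))` -/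
lemma cc_bound (c0 c1 : ℝ) : ∃ M : ℝ, 0 ≤ M ∧ ∀ n : ℕ,
    cc c0 c1 n ^ 2 * (((n : ℝ) + 1) * ((n : ℝ) + 2) * ((n : ℝ) + 3)) ≤ M ^ 2 := by
  refine ⟨Real.sqrt (6 * c0 ^ 2 + 24 * c1 ^ 2), Real.sqrt_nonneg _, ?_⟩
  rw [Real.sq_sqrt (by positivity)]
  intro n
  induction n using Nat.twoStepInduction with
  | zero =>
    simp only [cc]
    push_cast
    nlinarith [sq_nonneg c0, sq_nonneg c1]
  | one =>
    simp only [cc]
    push_cast
    nlinarith [sq_nonneg c0, sq_nonneg c1]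
  | more n ih _ =>
    refine le_trans ?_ ih
    rw [cc]
    have hn : (0 : ℝ) ≤ n := by positivity
    have h1 : (0 : ℝ) < (n : ℝ) + 1 := by positivity
    have h2 : (0 : ℝ) < (n : ℝ) + 2 := by positivity
    have h3 : (0 : ℝ) < (n : ℝ) + 3 := by positivity
    push_cast
    rw [mul_pow, div_pow, mul_assoc]
    apply mul_le_mul_of_nonneg_left _ (sq_nonneg _)
    rw [div_mul_eq_mul_div, div_le_iff₀ (by positivity)]
    have h4 := mul_le_mul_of_nonneg_right (poly_ineq n hn) h3.le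
    nlinarith [h4]

lemma cc_abs (c0 c1 : ℝ) : ∃ M : ℝ, 0 ≤ M ∧ ∀ n : ℕ, |cc c0 c1 n| ≤ M := by
  obtain ⟨M, hM, h⟩ := cc_bound c0 c1
  refine ⟨M, hM, fun n => ?_⟩
  apply abs_le_of_sq_le_sq _ hM
  refine le_trans ?_ (h n)
  have h1 : (1 : ℝ) ≤ ((n : ℝ) + 1) * ((n : ℝ) + 2) * ((n : ℝ) + 3) := by
    have : (0 : ℝ) ≤ n := by positivity
    nlinarith [mul_nonneg this this, mul_nonneg (mul_nonneg this this) this]
  nlinarith [sq_nonneg (cc c0 c1 n)]

lemma summable_cc (c0 c1 : ℝ) : Summable fun n => |cc c0 c1 n| := by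
  obtain ⟨M, hM, h⟩ := cc_bound c0 c1
  have h1 : Summable fun n : ℕ => M * (1 / ((n + 1 : ℕ) : ℝ) ^ (3 / 2 : ℝ)) := by
    apply Summable.mul_left
    exact (summable_nat_add_iff (f := fun n : ℕ => 1 / (n : ℝ) ^ (3 / 2 : ℝ)) 1).mpr
      (Real.summable_one_div_nat_rpow.mpr (by norm_num))
  refine Summable.of_nonneg_of_le (fun n => abs_nonneg _) (fun n => ?_) h1
  have hn : (0 : ℝ) < ((n + 1 : ℕ) : ℝ) := by positivity
  rw [mul_one_div, le_div_iff₀ (Real.rpow_pos_of_pos hn _)]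
  apply le_of_sq_le_sq _ hM
  rw [mul_pow, sq_abs, ← Real.rpow_natCast (((n + 1 : ℕ) : ℝ) ^ (3 / 2 : ℝ)) 2,
    ← Real.rpow_mul hn.le]
  norm_num
  have e : ((n : ℝ) + 1) ^ (3 : ℝ) = ((n : ℝ) + 1) ^ (3 : ℕ) := by
    rw [← Real.rpow_natCast]
    norm_num
  refine le_trans ?_ (h n)
  apply mul_le_mul_of_nonneg_left _ (sq_nonneg _)
  have hn' : (0 : ℝ) ≤ n := by positivity
  nlinarith [mul_nonneg hn' hn']

lemma ode (c0 c1 z : ℝ) (hz : |z| < 1) :
    (1 - z ^ 2) * (∑' n : ℕ, (((n : ℝ) + 1) * (((n : ℝ) + 1 + 1) * cc c0 c1 (n + 1 + 1))) * z ^ n) -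
      z * (∑' n : ℕ, (((n : ℝ) + 1) * cc c0 c1 (n + 1)) * z ^ n) +
      4 / 9 * (∑' n : ℕ, cc c0 c1 n * z ^ n) = 0 := by
  obtain ⟨M, hM, h⟩ := cc_abs c0 c1
  have s0 : Summable fun n => cc c0 c1 n * z ^ n :=
    summable_pow_series _ M 0 (fun n => by simpa using h n) z hz
  have s1 : Summable fun n : ℕ => ((n : ℝ) * cc c0 c1 n) * z ^ n := by
    refine summable_pow_series _ M 1 (fun n => ?_) z hz
    rw [abs_mul, Nat.abs_cast, mul_comm, pow_one]
    exact mul_le_mul (h n) (by linarith) (by positivity) hM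
  have s2 : Summable fun n : ℕ => ((n : ℝ) ^ 2 * cc c0 c1 n) * z ^ n := by
    refine summable_pow_series _ M 2 (fun n => ?_) z hz
    rw [abs_mul, abs_pow, Nat.abs_cast, mul_comm]
    refine mul_le_mul (h n) ?_ (by positivity) hM
    exact pow_le_pow_left₀ (by positivity) (by linarith) 2
  have e1 : z * (∑' n : ℕ, (((n : ℝ) + 1) * cc c0 c1 (n + 1)) * z ^ n) =
      ∑' n : ℕ, ((n : ℝ) * cc c0 c1 n) * z ^ n := by
    rw [← tsum_mul_left, s1.tsum_eq_zero_add]
    simp only [CharP.cast_eq_zero, zero_mul, zero_add]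
    apply tsum_congr
    intro n
    push_cast
    rw [pow_succ]
    ring
  have e2 : ∑' n : ℕ, (((n : ℝ) + 1) * (((n : ℝ) + 1 + 1) * cc c0 c1 (n + 1 + 1))) * z ^ n =
      ∑' n : ℕ, ((n : ℝ) ^ 2 * cc c0 c1 n) * z ^ n - 4 / 9 * ∑' n : ℕ, cc c0 c1 n * z ^ n := by
    rw [← tsum_mul_left, ← s2.tsum_sub (s0.mul_left _)]
    apply tsum_congr
    intro n
    have := cc_rec c0 c1 n
    rw [show (n : ℝ) + 1 + 1 = n + 2 by ring, show n + 1 + 1 = n + 2 by ring, this]
    ring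
  have e3 : z ^ 2 * (∑' n : ℕ, (((n : ℝ) + 1) * (((n : ℝ) + 1 + 1) * cc c0 c1 (n + 1 + 1))) * z ^ n)
      = ∑' n : ℕ, ((n : ℝ) ^ 2 * cc c0 c1 n) * z ^ n -
        ∑' n : ℕ, ((n : ℝ) * cc c0 c1 n) * z ^ n := by
    rw [← s2.tsum_sub s1, (s2.sub s1).tsum_eq_zero_add,
      ((summable_nat_add_iff 1).mpr (s2.sub s1)).tsum_eq_zero_add, ← tsum_mul_left]
    simp only [CharP.cast_eq_zero, ne_eq, OfNat.ofNat_ne_zero, not_false_eq_true, zero_pow,
      zero_mul, zero_add, Nat.cast_one, one_pow, sub_self]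
    apply tsum_congr
    intro n
    push_cast
    rw [pow_succ, pow_succ]
    ring
  linear_combination e2 - e3 - e1

/-- the closed form inside the interval -/
lemma closed_open (c0 c1 z : ℝ) (hz : |z| < 1) :
    ∑' n : ℕ, cc c0 c1 n * z ^ n =
      c0 * Real.cos (2 / 3 * Real.arcsin z) + 3 / 2 * c1 * Real.sin (2 / 3 * Real.arcsin z) := by
  obtain ⟨M, hM, h⟩ := cc_abs c0 c1
  set G0 : ℝ → ℝ := fun y => ∑' n : ℕ, cc c0 c1 n * y ^ n with hG0
  set G1 : ℝ → ℝ := fun y => ∑' n : ℕ, (((n : ℝ) + 1) * cc c0 c1 (n + 1)) * y ^ n with hG1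
  set G2 : ℝ → ℝ := fun y =>
    ∑' n : ℕ, (((n : ℝ) + 1) * (((n : ℝ) + 1 + 1) * cc c0 c1 (n + 1 + 1))) * y ^ n with hG2
  have d0 : ∀ y, |y| < 1 → HasDerivAt G0 (G1 y) y := fun y hy =>
    hasDerivAt_pow_series _ M 0 (fun n => by simpa using h n) y hy
  have d1 : ∀ y, |y| < 1 → HasDerivAt G1 (G2 y) y := by
    intro y hy
    have := hasDerivAt_pow_series (fun n => ((n : ℝ) + 1) * cc c0 c1 (n + 1)) M 1 (fun n => by
      rw [abs_mul, mul_comm, pow_one, abs_of_nonneg (by positivity : (0 : ℝ) ≤ (n : ℝ) + 1)]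
      exact mul_le_mul_of_nonneg_right (h _) (by positivity)) y hy
    push_cast at this
    exact this
  set I : Set ℝ := Set.Ioo (-(Real.pi / 2)) (Real.pi / 2) with hI
  have hsin : ∀ φ ∈ I, |Real.sin φ| < 1 := by
    intro φ hφ
    have hc := Real.cos_pos_of_mem_Ioo hφ
    rw [abs_lt]
    have h2 := Real.sin_sq_add_cos_sq φ
    constructor <;> nlinarith [sq_nonneg (Real.sin φ), sq_nonneg (Real.cos φ)]
  have hh : ∀ φ ∈ I, HasDerivAt (fun φ => G0 (Real.sin φ)) (G1 (Real.sin φ) * Real.cos φ) φ :=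
    fun φ hφ => (d0 _ (hsin φ hφ)).comp φ (Real.hasDerivAt_sin φ)
  have hh1 : ∀ φ ∈ I, HasDerivAt (fun φ => G1 (Real.sin φ) * Real.cos φ)
      (-(4 / 9) * G0 (Real.sin φ)) φ := by
    intro φ hφ
    have e1 := ((d1 _ (hsin φ hφ)).comp φ (Real.hasDerivAt_sin φ)).mul (Real.hasDerivAt_cos φ)
    have e2 := ode c0 c1 (Real.sin φ) (hsin φ hφ)
    refine e1.congr_deriv ?_
    have e3 := Real.sin_sq_add_cos_sq φ
    show G2 (Real.sin φ) * Real.cos φ * Real.cos φ + G1 (Real.sin φ) * (-Real.sin φ) = _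
    change (1 - Real.sin φ ^ 2) * G2 (Real.sin φ) - Real.sin φ * G1 (Real.sin φ) +
      4 / 9 * G0 (Real.sin φ) = 0 at e2
    linear_combination e2 + G2 (Real.sin φ) * e3
  have hcos : ∀ φ, HasDerivAt (fun φ : ℝ => Real.cos (2 / 3 * φ))
      (-Real.sin (2 / 3 * φ) * (2 / 3)) φ := by
    intro φ
    exact ((hasDerivAt_id' φ).const_mul (2 / 3 : ℝ)).cos.congr_deriv (by ring)
  have hsn : ∀ φ, HasDerivAt (fun φ : ℝ => Real.sin (2 / 3 * φ))
      (Real.cos (2 / 3 * φ) * (2 / 3)) φ := by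
    intro φ
    exact ((hasDerivAt_id' φ).const_mul (2 / 3 : ℝ)).sin.congr_deriv (by ring)
  have hA : ∀ φ ∈ I, HasDerivAt (fun φ => G0 (Real.sin φ) * Real.cos (2 / 3 * φ) -
      3 / 2 * (G1 (Real.sin φ) * Real.cos φ * Real.sin (2 / 3 * φ))) 0 φ := by
    intro φ hφ
    have := ((hh φ hφ).mul (hcos φ)).sub (((hh1 φ hφ).mul (hsn φ)).const_mul (3 / 2 : ℝ))
    refine this.congr_deriv ?_
    ring
  have hB : ∀ φ ∈ I, HasDerivAt (fun φ => G0 (Real.sin φ) * Real.sin (2 / 3 * φ) +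
      3 / 2 * (G1 (Real.sin φ) * Real.cos φ * Real.cos (2 / 3 * φ))) 0 φ := by
    intro φ hφ
    have := ((hh φ hφ).mul (hsn φ)).add (((hh1 φ hφ).mul (hcos φ)).const_mul (3 / 2 : ℝ))
    refine this.congr_deriv ?_
    ring
  have h0I : (0 : ℝ) ∈ I := by
    rw [hI, Set.mem_Ioo]
    constructor <;> linarith [Real.pi_pos]
  have hpre : IsPreconnected I := isPreconnected_Ioo
  have hφ : Real.arcsin z ∈ I := by
    rw [hI, Set.mem_Ioo]
    rw [abs_lt] at hz
    exact ⟨Real.neg_pi_div_two_lt_arcsin.mpr hz.1, Real.arcsin_lt_pi_div_two.mpr hz.2⟩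
  have cA := IsOpen.is_const_of_deriv_eq_zero (𝕜 := ℝ) isOpen_Ioo hpre
    (fun φ hφ => (hA φ hφ).differentiableAt.differentiableWithinAt)
    (fun φ hφ => (hA φ hφ).deriv) hφ h0I
  have cB := IsOpen.is_const_of_deriv_eq_zero (𝕜 := ℝ) isOpen_Ioo hpre
    (fun φ hφ => (hB φ hφ).differentiableAt.differentiableWithinAt)
    (fun φ hφ => (hB φ hφ).deriv) hφ h0I
  have hs : Real.sin (Real.arcsin z) = z := by
    rw [abs_lt] at hz
    exact Real.sin_arcsin hz.1.le hz.2.le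
  have g0 : G0 0 = c0 := by
    rw [hG0]
    simp only
    rw [tsum_eq_single 0]
    · simp [cc]
    · intro n hn
      simp [hn]
  have g1 : G1 0 = c1 := by
    rw [hG1]
    simp only
    rw [tsum_eq_single 0]
    · simp [cc]
    · intro n hn
      simp [hn]
  simp only [Real.sin_zero, Real.cos_zero, mul_zero, hs, g0, g1] at cA cB
  have e3 := Real.sin_sq_add_cos_sq (2 / 3 * Real.arcsin z)
  show G0 z = _
  linear_combination (Real.cos (2 / 3 * Real.arcsin z)) * cA +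
    (Real.sin (2 / 3 * Real.arcsin z)) * cB - (G0 z) * e3

/-- the closed form on the closed interval -/
lemma closed_form (c0 c1 z : ℝ) (hz : |z| ≤ 1) :
    ∑' n : ℕ, cc c0 c1 n * z ^ n =
      c0 * Real.cos (2 / 3 * Real.arcsin z) + 3 / 2 * c1 * Real.sin (2 / 3 * Real.arcsin z) := by
  have h1 : Set.EqOn (fun z : ℝ => ∑' n : ℕ, cc c0 c1 n * z ^ n)
      (fun z => c0 * Real.cos (2 / 3 * Real.arcsin z) +
        3 / 2 * c1 * Real.sin (2 / 3 * Real.arcsin z)) (Set.Ioo (-1) 1) := by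
    intro y hy
    exact closed_open c0 c1 y (abs_lt.mpr hy)
  have h2 : ContinuousOn (fun z : ℝ => ∑' n : ℕ, cc c0 c1 n * z ^ n) (Set.Icc (-1) 1) := by
    apply continuousOn_tsum (u := fun n => |cc c0 c1 n|)
    · intro n
      fun_prop
    · exact summable_cc c0 c1
    · intro n y hy
      rw [Real.norm_eq_abs, abs_mul, abs_pow]
      have : |y| ^ n ≤ 1 := pow_le_one₀ (abs_nonneg _) (abs_le.mpr hy)
      nlinarith [abs_nonneg (cc c0 c1 n)]
  have h3 : Continuous (fun z => c0 * Real.cos (2 / 3 * Real.arcsin z) +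
        3 / 2 * c1 * Real.sin (2 / 3 * Real.arcsin z)) := by
    have := Real.continuous_arcsin
    fun_prop
  have h4 := Set.EqOn.of_subset_closure h1 h2 h3.continuousOn Set.Ioo_subset_Icc_self
    (by rw [closure_Ioo (by norm_num)])
  exact h4 (abs_le.mp hz)

end Pool.Agent.V11304.SQ
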